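import Pool.Agent.Helper743.Lim

set_option autoImplicit false

/-! A 1-generic set which is a limit of a computable function. -/

namespace Pool.Agent.W934.Gen

open Nat.Partrec (Code)
open Encodable

/-- stage approximation of the c.e. set of strings with index `e` -/
def W (s e : ℕ) (τ : List Bool) : Bool :=
  (Code.evaln s (Denumerable.ofNat Code e) (encode τ)).isSome

def dec (n : ℕ) : List Bool := (decode (α := List Bool) n).getD []

lemma dec_encode (τ : List Bool) : dec (encode τ) = τ := by
  unfold dec; rw [encodek]; rfl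

def hit (e : ℕ) (σ : List Bool) (t : ℕ) : Bool := W t.unpair.2 e (σ ++ dec t.unpair.1)

def nxt (s e : ℕ) (σ : List Bool) : List Bool :=
  (bif decide ((List.range s).findIdx (hit e σ) < s) then
    σ ++ dec ((List.range s).findIdx (hit e σ)).unpair.1 else σ) ++ [false]

def sq (s : ℕ) : ℕ → List Bool
  | 0 => []
  | e + 1 => nxt s e (sq s e)

open Classical in
noncomputable def nxtL (e : ℕ) (σ : List Bool) : List Bool :=
  (if h : ∃ t, hit e σ t = true then σ ++ dec (Nat.find h).unpair.1 else σ) ++ [false]

noncomputable def sqL : ℕ → List Bool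
  | 0 => []
  | e + 1 => nxtL e (sqL e)

lemma W_prim : Primrec (fun p : (ℕ × ℕ) × List Bool => W p.1.1 p.1.2 p.2) := by
  unfold W
  exact Primrec.option_isSome.comp (Code.primrec_evaln.comp
    (((Primrec.fst.comp Primrec.fst).pair ((Primrec.ofNat Code).comp
      (Primrec.snd.comp Primrec.fst))).pair (Primrec.encode.comp Primrec.snd)))

lemma dec_prim : Primrec dec := by
  unfold dec
  exact Primrec.option_getD.comp Primrec.decode (Primrec.const [])

lemma u1 : Primrec (fun n : ℕ => n.unpair.1) := Primrec.fst.comp Primrec.unpair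
lemma u2 : Primrec (fun n : ℕ => n.unpair.2) := Primrec.snd.comp Primrec.unpair

lemma hit_prim : Primrec₂ (fun (p : ℕ × List Bool) (t : ℕ) => hit p.1 p.2 t) := by
  unfold hit
  exact W_prim.comp (((u2.comp Primrec.snd).pair (Primrec.fst.comp Primrec.fst)).pair
    (Primrec.list_append.comp (Primrec.snd.comp Primrec.fst)
      (dec_prim.comp (u1.comp Primrec.snd))))

lemma nxt_prim : Primrec (fun p : (ℕ × ℕ) × List Bool => nxt p.1.1 p.1.2 p.2) := by
  have hs : Primrec (fun p : (ℕ × ℕ) × List Bool => p.1.1) := Primrec.fst.comp Primrec.fst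
  have hi : Primrec (fun p : (ℕ × ℕ) × List Bool =>
      (List.range p.1.1).findIdx (hit p.1.2 p.2)) := by
    refine Primrec.list_findIdx (Primrec.list_range.comp hs) ?_
    exact hit_prim.comp (((Primrec.snd.comp (Primrec.fst.comp Primrec.fst)).pair
      (Primrec.snd.comp Primrec.fst))) Primrec.snd
  unfold nxt
  refine Primrec.list_append.comp (Primrec.cond ?_ ?_ Primrec.snd) (Primrec.const _)
  · exact (Primrec.nat_lt.comp hi hs).decide
  · exact Primrec.list_append.comp Primrec.snd (dec_prim.comp (u1.comp hi))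

lemma sq_prim : Primrec₂ sq := by
  have h : Primrec₂ (fun (s e : ℕ) => Nat.rec (motive := fun _ => List Bool) []
      (fun e ih => nxt s e ih) e) := by
    refine Primrec.nat_rec (f := fun _ : ℕ => ([] : List Bool))
      (g := fun s p => nxt s p.1 p.2) (Primrec.const _) ?_
    exact nxt_prim.comp ((Primrec.fst.pair (Primrec.fst.comp Primrec.snd)).pair
      (Primrec.snd.comp Primrec.snd))
  refine h.of_eq fun s e => ?_
  induction e with
  | zero => rfl
  | succ e ih => simp only [sq, ← ih]

lemma nxt_lim (e : ℕ) (σ : List Bool) : ∃ s0, ∀ s, s0 ≤ s → nxt s e σ = nxtL e σ := by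
  classical
  by_cases h : ∃ t, hit e σ t = true
  · refine ⟨Nat.find h + 1, fun s hs => ?_⟩
    have h1 : (List.range s).findIdx (hit e σ) = Nat.find h := by
      rw [List.findIdx_eq (by simpa using (by omega : Nat.find h < s))]
      refine ⟨by simpa using Nat.find_spec h, fun j hj => ?_⟩
      have := Nat.find_min h hj
      simpa using this
    unfold nxt nxtL
    rw [h1, dif_pos h, decide_eq_true (by omega : Nat.find h < s)]
    rfl
  · refine ⟨0, fun s _ => ?_⟩
    have h1 : ¬ (List.range s).findIdx (hit e σ) < s := by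
      intro hlt
      have hlt' : (List.range s).findIdx (hit e σ) < (List.range s).length := by simpa using hlt
      have h2 := List.findIdx_getElem (w := hlt')
      exact h ⟨_, h2⟩
    unfold nxt nxtL
    rw [dif_neg h, decide_eq_false h1]
    rfl

lemma sq_lim (e : ℕ) : ∃ s0, ∀ s, s0 ≤ s → sq s e = sqL e := by
  induction e with
  | zero => exact ⟨0, fun s _ => rfl⟩
  | succ e ih =>
    obtain ⟨s0, h0⟩ := ih
    obtain ⟨s1, h1⟩ := nxt_lim e (sqL e)
    refine ⟨max s0 s1, fun s hs => ?_⟩
    show nxt s e (sq s e) = nxtL e (sqL e)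
    rw [h0 s (le_trans (le_max_left _ _) hs), h1 s (le_trans (le_max_right _ _) hs)]

/-- the generic set -/
noncomputable def A (n : ℕ) : Bool := (sqL (n + 1)).getD n false

/-- initial segments -/
noncomputable def preB (m : ℕ) : List Bool := (List.range m).map A

lemma nxtL_prefix (e : ℕ) (σ : List Bool) : σ <+: nxtL e σ := by
  unfold nxtL
  split_ifs with h
  · rw [List.append_assoc]; exact List.prefix_append _ _
  · exact List.prefix_append _ _

lemma nxtL_length (e : ℕ) (σ : List Bool) : σ.length + 1 ≤ (nxtL e σ).length := by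
  unfold nxtL
  split_ifs with h
  · simp only [List.length_append, List.length_singleton]; omega
  · simp

lemma sqL_length (e : ℕ) : e ≤ (sqL e).length := by
  induction e with
  | zero => exact Nat.zero_le _
  | succ e ih =>
    have := nxtL_length e (sqL e)
    show e + 1 ≤ (nxtL e (sqL e)).length
    omega

lemma sqL_prefix {e f : ℕ} (h : e ≤ f) : sqL e <+: sqL f := by
  induction f with
  | zero => have : e = 0 := by omega
            subst this; exact List.prefix_rfl
  | succ f ih =>
    rcases Nat.lt_or_ge e (f + 1) with h1 | h1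
    · exact (ih (by omega)).trans (nxtL_prefix f (sqL f))
    · have : e = f + 1 := by omega
      subst this; exact List.prefix_rfl

lemma A_eq {e n : ℕ} (h : n < (sqL e).length) : (sqL e)[n] = A n := by
  unfold A
  have h1 : n < (sqL (n + 1)).length := by have := sqL_length (n + 1); omega
  rcases le_total e (n + 1) with h2 | h2
  · obtain ⟨ρ, hρ⟩ := sqL_prefix h2
    rw [← hρ, List.getD_append _ _ _ _ h, List.getD_eq_getElem _ _ h]
  · obtain ⟨ρ, hρ⟩ := sqL_prefix h2
    have h3 : (sqL e)[n] = (sqL e).getD n false := (List.getD_eq_getElem _ _ h).symm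
    rw [h3, ← hρ, List.getD_append _ _ _ _ h1]

lemma sqL_eq (e : ℕ) : sqL e = preB (sqL e).length := by
  apply List.ext_getElem
  · simp [preB]
  · intro i h1 h2
    rw [A_eq h1]
    simp [preB]

lemma preB_of_prefix {τ : List Bool} {e : ℕ} (h : τ <+: sqL e) : τ = preB τ.length := by
  obtain ⟨κ, hκ⟩ := h
  apply List.ext_getElem
  · simp [preB]
  · intro i h1 h2
    have h3 : i < (sqL e).length := by rw [← hκ]; simp; omega
    have h4 := A_eq h3
    have h5 : τ[i] = (sqL e)[i] := by
      simp only [← hκ]
      rw [List.getElem_append_left]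
    rw [h5, h4]
    simp [preB]

/-- every c.e. predicate on strings has an index -/
lemma exists_index {p : List Bool → Prop} (hp : REPred p) :
    ∃ e, ∀ a, p a ↔ ∃ s, W s e a = true := by
  obtain ⟨c, hc⟩ := Code.exists_code.1 hp
  refine ⟨encode c, fun a => ?_⟩
  have h1 : (c.eval (encode a)).Dom ↔ p a := by
    rw [hc]
    show (((decode (α := List Bool) (encode a) : Part (List Bool))).bind _).Dom ↔ _
    rw [encodek]
    simp [Part.assert]
  rw [← h1]
  constructor
  · intro h
    obtain ⟨s, hs⟩ := Code.evaln_complete.1 (Part.get_mem h)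
    exact ⟨s, by unfold W; rw [Denumerable.ofNat_encode]; exact Option.isSome_iff_exists.2 ⟨_, hs⟩⟩
  · rintro ⟨s, hs⟩
    unfold W at hs
    rw [Denumerable.ofNat_encode] at hs
    obtain ⟨v, hv⟩ := Option.isSome_iff_exists.1 hs
    exact Part.dom_iff_mem.2 ⟨v, Code.evaln_sound hv⟩

/-- genericity -/
theorem generic {S : List Bool → Prop} (hS : REPred S) :
    (∃ m, S (preB m)) ∨ ∃ m, ∀ ρ, ¬ S (preB m ++ ρ) := by
  classical
  obtain ⟨e, he⟩ := exists_index hS
  by_cases h : ∃ t, hit e (sqL e) t = true
  · left
    have h1 : sqL (e + 1) = sqL e ++ dec (Nat.find h).unpair.1 ++ [false] := by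
      show nxtL e (sqL e) = _
      unfold nxtL
      rw [dif_pos h]
    have h2 := Nat.find_spec h
    have h3 : sqL e ++ dec (Nat.find h).unpair.1 <+: sqL (e + 1) := by
      rw [h1]; exact List.prefix_append _ _
    have h5 := preB_of_prefix h3
    refine ⟨(sqL e ++ dec (Nat.find h).unpair.1).length, ?_⟩
    rw [← h5]
    exact (he _).2 ⟨_, h2⟩
  · right
    refine ⟨(sqL e).length, fun ρ hρ => h ?_⟩
    rw [← sqL_eq, he] at hρ
    obtain ⟨s, hs⟩ := hρ
    refine ⟨Nat.pair (encode ρ) s, ?_⟩
    unfold hit
    rw [Nat.unpair_pair, dec_encode]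
    exact hs

theorem limC : Helper743.LimC (fun n => (A n).toNat) := by
  refine ⟨fun n s => ((sq s (n + 1)).getD n false).toNat, ?_, ?_⟩
  · have h1 : Primrec₂ (fun n s : ℕ => (sq s (n + 1)).getD n false) :=
      Primrec.list_getD false |>.comp (sq_prim.comp Primrec.snd (Primrec.succ.comp Primrec.fst))
        Primrec.fst
    exact ((Primrec.dom_bool Bool.toNat).comp h1).to_comp
  · intro n
    obtain ⟨s0, h0⟩ := sq_lim (n + 1)
    exact ⟨s0, fun s hs => by show ((sq s (n + 1)).getD n false).toNat = _; rw [h0 s hs]; rfl⟩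

end Pool.Agent.W934.Gen
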