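import Pool.Agent.Helper446.Comp
import Pool.Agent.W934.Gen

set_option autoImplicit false

/-! Highly computable two-colourable graphs have computable colourings with four colours. -/

namespace Pool.Agent.W934.Col

open Pool.Agent.Helper446

theorem coloring {Adj : ℕ → ℕ → Prop} {L : ℕ → List ℕ} (hL : Computable L)
    (hadj : ∀ x y, Adj x y ↔ y ∈ L x) (hsymm : ∀ x y, Adj x y → Adj y x)
    (C : ℕ → Bool) (hC : ∀ x y, Adj x y → C x ≠ C y) :
    ∃ c : ℕ → ℕ, Computable c ∧ (∀ x, c x < 4) ∧ ∀ x y, Adj x y → c x ≠ c y := by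
  classical
  -- the finite sets
  obtain ⟨D, hD, hD0, hDs⟩ : ∃ D : ℕ → List ℕ, Computable D ∧ D 0 = [] ∧
      ∀ s y, y ∈ D (s + 1) ↔ y = s ∨ y ∈ D s ∨ ∃ b ∈ D s, y ∈ L b := by
    refine ⟨fun s => Nat.rec (motive := fun _ => List ℕ) []
      (fun s ih => ih.foldl (fun acc b => acc ++ L b) (s :: ih)) s, ?_, rfl, ?_⟩
    · refine Computable.nat_rec (f := fun s : ℕ => s) (g := fun _ => ([] : List ℕ))
        (h := fun _ p => p.2.foldl (fun acc b => acc ++ L b) (p.1 :: p.2)) Computable.id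
        (Computable.const _) ?_
      refine RE.list_foldl (f := fun x : ℕ × (ℕ × List ℕ) => x.2.2)
        (g := fun x : ℕ × (ℕ × List ℕ) => x.2.1 :: x.2.2)
        (h := fun _ (p : List ℕ × ℕ) => p.1 ++ L p.2) (by fun_prop) (by fun_prop) ?_
      exact Computable.list_append.comp (Computable.fst.comp Computable.snd)
        (hL.comp (Computable.snd.comp Computable.snd))
    · intro s y
      have key : ∀ (l acc : List ℕ), y ∈ l.foldl (fun acc b => acc ++ L b) acc ↔
          y ∈ acc ∨ ∃ b ∈ l, y ∈ L b := by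
        intro l
        induction l with
        | nil => intro acc; simp
        | cons a l ih =>
          intro acc
          rw [List.foldl_cons, ih]
          simp only [List.mem_append, List.mem_cons, exists_eq_or_imp]
          tauto
      refine Iff.trans (key (Nat.rec (motive := fun _ => List ℕ) []
        (fun s ih => ih.foldl (fun acc b => acc ++ L b) (s :: ih)) s)
        (s :: Nat.rec (motive := fun _ => List ℕ) []
        (fun s ih => ih.foldl (fun acc b => acc ++ L b) (s :: ih)) s)) ?_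
      simp only [List.mem_cons]
      tauto
  have hex : ∀ x, ∃ s, x ∈ D (s + 1) := fun x => ⟨x, (hDs x x).2 (Or.inl rfl)⟩
  -- levels
  obtain ⟨ℓ, hℓ, hℓ1, hℓ2⟩ : ∃ ℓ : ℕ → ℕ, Computable ℓ ∧ (∀ x, x ∈ D (ℓ x + 1)) ∧
      ∀ x s, x ∈ D (s + 1) → ℓ x ≤ s := by
    refine ⟨fun x => Nat.find (hex x), ?_, fun x => Nat.find_spec (hex x),
      fun x s h => Nat.find_min' (hex x) h⟩
    refine RE.computable_of_graph ?_
    have h1 : REPred fun p : ℕ × ℕ => p.1 ∈ D (p.2 + 1) ∧ ∀ t < p.2, p.1 ∉ D (t + 1) := by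
      refine RE.and (RE.mem_list (by fun_prop) (hD.comp (by fun_prop))) ?_
      refine RE.all_lt (p := fun (p : ℕ × ℕ) t => p.1 ∉ D (t + 1)) ?_ (by fun_prop)
      exact RE.not_mem_list (by fun_prop) (hD.comp (by fun_prop))
    refine h1.of_eq fun p => ?_
    rw [Nat.find_eq_iff]
  -- two-colourings of the finite sets
  let r : ℕ → List ℕ → Prop := fun s B => ∀ x ∈ D (s + 1), ∀ y ∈ D (s + 1),
    y ∉ L x ∨ (x ∈ B ∧ y ∉ B) ∨ (x ∉ B ∧ y ∈ B)
  have hr : REPred fun x : ℕ × List ℕ => r x.1 x.2 := by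
    refine RE.all_mem (p := fun (a : ℕ × List ℕ) (x : ℕ) => ∀ y ∈ D (a.1 + 1),
      y ∉ L x ∨ (x ∈ a.2 ∧ y ∉ a.2) ∨ (x ∉ a.2 ∧ y ∈ a.2)) ?_ (hD.comp (by fun_prop))
    refine RE.all_mem (p := fun (a : (ℕ × List ℕ) × ℕ) (y : ℕ) =>
      y ∉ L a.2 ∨ (a.2 ∈ a.1.2 ∧ y ∉ a.1.2) ∨ (a.2 ∉ a.1.2 ∧ y ∈ a.1.2)) ?_
      (hD.comp (by fun_prop))
    refine RE.or (RE.not_mem_list (by fun_prop) (hL.comp (by fun_prop))) (RE.or (RE.and ?_ ?_)
      (RE.and ?_ ?_))
    · exact RE.mem_list (by fun_prop) (by fun_prop)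
    · exact RE.not_mem_list (by fun_prop) (by fun_prop)
    · exact RE.not_mem_list (by fun_prop) (by fun_prop)
    · exact RE.mem_list (by fun_prop) (by fun_prop)
  obtain ⟨F, hF, hF1, hF2⟩ := RE.uniformize (r := r) hr
  have hdom : ∀ s, (F s).Dom := by
    intro s
    rw [hF1]
    refine ⟨(D (s + 1)).filter (fun x => C x), ?_⟩
    intro x hx y hy
    by_cases h : y ∈ L x
    · right
      have h1 := hC x y ((hadj x y).2 h)
      simp only [List.mem_filter, hx, hy, true_and]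
      cases hx1 : C x <;> cases hy1 : C y <;> simp_all
    · exact Or.inl h
  let B : ℕ → List ℕ := fun s => (F s).get (hdom s)
  have hB : Computable B := hF.of_eq fun s => (Part.some_get (hdom s)).symm
  have hBr : ∀ s, r s (B s) := fun s => hF2 s _ (Part.get_mem _)
  refine ⟨fun x => 2 * (ℓ x % 2) + (if x ∈ B (ℓ x) then 1 else 0), ?_, ?_, ?_⟩
  · have h1 : Computable fun x => decide (x ∈ B (ℓ x)) := by
      have h2 : ComputablePred fun x => x ∈ B (ℓ x) := by
        refine RE.cp_of_re (RE.mem_list (by fun_prop) (hB.comp hℓ))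
          (RE.not_mem_list (by fun_prop) (hB.comp hℓ))
      exact h2.decide
    have h3 : Computable fun x => 2 * (ℓ x % 2) :=
      Primrec.nat_mul.to_comp.comp (Computable.const 2)
        (Primrec.nat_mod.to_comp.comp hℓ (Computable.const 2))
    refine (Primrec.nat_add.to_comp.comp h3 (Computable.cond h1 (Computable.const 1)
      (Computable.const 0))).of_eq fun x => ?_
    by_cases h : x ∈ B (ℓ x) <;> simp [h]
  · intro x
    dsimp only
    split_ifs <;> omega
  · intro x y hxy heq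
    have h1 : ℓ y ≤ ℓ x + 1 :=
      hℓ2 _ _ ((hDs _ _).2 (Or.inr (Or.inr ⟨x, hℓ1 x, (hadj _ _).1 hxy⟩)))
    have h2 : ℓ x ≤ ℓ y + 1 :=
      hℓ2 _ _ ((hDs _ _).2 (Or.inr (Or.inr ⟨y, hℓ1 y, (hadj _ _).1 (hsymm _ _ hxy)⟩)))
    have h3 : ℓ x = ℓ y := by
      dsimp only at heq
      split_ifs at heq <;> omega
    have h4 := hBr (ℓ x) x (hℓ1 x) y (by rw [h3]; exact hℓ1 y)
    dsimp only at heq
    rw [← h3] at heq
    rcases h4 with h4 | ⟨h4, h5⟩ | ⟨h4, h5⟩
    · exact h4 ((hadj _ _).1 hxy)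
    · rw [if_pos h4, if_neg h5] at heq; omega
    · rw [if_neg h4, if_pos h5] at heq; omega

end Pool.Agent.W934.Col
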